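import Pool.Agent.MP4d31e4.Dev

open MeasureTheory ProbabilityTheory Filter
open scoped ENNReal NNReal Topology

set_option linter.unusedSectionVars false

namespace Pool.Agent.MP4d31e4

section

variable {V : Type*} [Fintype V] [MeasurableSpace V] [DiscreteMeasurableSpace V]

/-- every vertex is visited by time `k` -/
def Covered {m : ℕ} (k : ℕ) (X : Fin m → ℕ → V) : Prop := ∀ v, ∃ i, ∃ s ≤ k, X i s = v

lemma coverTime_le_iff {m : ℕ} (k : ℕ) (X : Fin m → ℕ → V) :
    coverTime X ≤ k ↔ Covered k X := by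
  constructor
  · intro h
    have h1 : coverTime X < (k + 1 : ℕ) := by
      refine lt_of_le_of_lt h ?_
      exact_mod_cast Nat.lt_succ_self k
    simp only [coverTime, iInf_lt_iff] at h1
    obtain ⟨t, ht, htk⟩ := h1
    have htk' : t ≤ k := by
      have : t < k + 1 := by exact_mod_cast htk
      omega
    intro v
    obtain ⟨i, s, hs, he⟩ := ht v
    exact ⟨i, s, hs.trans htk', he⟩
  · intro h
    exact iInf₂_le k h

lemma measurableSet_covered (m k : ℕ) : MeasurableSet {X : Fin m → ℕ → V | Covered k X} := by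
  have : {X : Fin m → ℕ → V | Covered k X} =
      ⋂ v, ⋃ i, ⋃ s ∈ Set.Iic k, {X : Fin m → ℕ → V | X i s = v} := by
    ext X; simp [Covered]
  rw [this]
  refine MeasurableSet.iInter fun v => MeasurableSet.iUnion fun i =>
    MeasurableSet.biUnion (Set.to_countable _) fun s _ => ?_
  have hm : Measurable fun X : Fin m → ℕ → V => X i s :=
    (measurable_pi_apply s).comp (measurable_pi_apply i)
  exact hm (MeasurableSet.singleton v)

variable [Nonempty V] (G : SimpleGraph V)

instance : IsProbabilityMeasure (srwUnifLaw G) := srwUnifLaw_isProb G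

instance (m : ℕ) : IsProbabilityMeasure (walkersLaw G m) := by
  unfold walkersLaw; infer_instance

lemma hit_le (hG : VertexTransitive G) (u : V) (k : ℕ) :
    srwUnifLaw G {x | ∃ s ≤ k, x s = u} ≤ (k + 1 : ℕ) * (Fintype.card V : ℝ≥0∞)⁻¹ := by
  have : {x : ℕ → V | ∃ s ≤ k, x s = u} = ⋃ s ∈ Finset.range (k + 1), {x | x s = u} := by
    ext x; simp
  rw [this]
  refine (measure_biUnion_finset_le _ _).trans ?_
  simp [srwUnifLaw_stationary G hG]

lemma increment (hG : VertexTransitive G) (m k : ℕ) :
    walkersLaw G (m + 1) {X | Covered k X} ≤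
      walkersLaw G m {X | Covered k X} + (k + 1 : ℕ) * (Fintype.card V : ℝ≥0∞)⁻¹ := by
  classical
  have hmp := measurePreserving_piFinSuccAbove (fun _ : Fin (m + 1) => srwUnifLaw G) 0
  set e := MeasurableEquiv.piFinSuccAbove (fun _ : Fin (m + 1) => ℕ → V) 0 with he
  have h1 : walkersLaw G (m + 1) {X | Covered k X} =
      ((srwUnifLaw G).prod (walkersLaw G m)) (e.symm ⁻¹' {X | Covered k X}) := by
    have h2 := hmp.symm.measure_preimage (measurableSet_covered (V := V) (m + 1) k).nullMeasurableSet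
    exact h2.symm
  have hmeas : MeasurableSet (e.symm ⁻¹' {X | Covered k X}) :=
    e.symm.measurable (measurableSet_covered (m + 1) k)
  rw [h1, Measure.prod_apply_symm hmeas]
  have hbound : ∀ Y : Fin m → ℕ → V,
      srwUnifLaw G ((fun x => (x, Y)) ⁻¹' (e.symm ⁻¹' {X | Covered k X})) ≤
        Set.indicator {X : Fin m → ℕ → V | Covered k X} (fun _ => (1 : ℝ≥0∞)) Y +
          (k + 1 : ℕ) * (Fintype.card V : ℝ≥0∞)⁻¹ := by
    intro Y
    by_cases hY : Covered k Y
    · rw [Set.indicator_of_mem (by exact hY)]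
      exact prob_le_one.trans le_self_add
    · rw [Set.indicator_of_notMem (by exact hY), zero_add]
      unfold Covered at hY
      push Not at hY
      obtain ⟨u, hu⟩ := hY
      refine (measure_mono ?_).trans (hit_le G hG u k)
      intro x hx
      simp only [Set.mem_preimage, Set.mem_ofPred_eq] at hx ⊢
      obtain ⟨i, s, hs, hi⟩ := hx u
      have hsymm : e.symm (x, Y) = Fin.cons x Y := by
        rw [he]
        simp [MeasurableEquiv.piFinSuccAbove, Fin.insertNthEquiv]
      rw [hsymm] at hi
      induction i using Fin.cases with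
      | zero => exact ⟨s, hs, by simpa using hi⟩
      | succ j => exact absurd (by simpa using hi) (hu j s hs)
  refine (lintegral_mono hbound).trans ?_
  rw [lintegral_add_right _ measurable_const, lintegral_const,
    lintegral_indicator_const (measurableSet_covered m k)]
  simp

lemma covered_zero (k : ℕ) : walkersLaw G 0 {X | Covered k X} = 0 := by
  have : {X : Fin 0 → ℕ → V | Covered k X} = ∅ := by
    ext X
    simp [Covered]
  rw [this]; simp

lemma le_linear (hG : VertexTransitive G) (m k : ℕ) :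
    walkersLaw G m {X | Covered k X} ≤ m * ((k + 1 : ℕ) * (Fintype.card V : ℝ≥0∞)⁻¹) := by
  induction m with
  | zero => rw [covered_zero]; simp
  | succ m ih =>
    refine (increment G hG m k).trans ?_
    calc _ ≤ m * ((k + 1 : ℕ) * (Fintype.card V : ℝ≥0∞)⁻¹) +
        (k + 1 : ℕ) * (Fintype.card V : ℝ≥0∞)⁻¹ := by gcongr
      _ = _ := by push_cast; ring

lemma exists_half_le (hG : VertexTransitive G) (k : ℕ) :
    ∃ m, 1 / 2 ≤ walkersLaw G m {X | Covered k X} := by
  classical
  set q : ℝ≥0∞ := 1 - (Fintype.card V : ℝ≥0∞)⁻¹ with hq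
  have hcard : (Fintype.card V : ℝ≥0∞) ≠ 0 := by exact_mod_cast Fintype.card_ne_zero
  have hq1 : q < 1 := by
    refine ENNReal.sub_lt_self ENNReal.one_ne_top one_ne_zero ?_
    exact ENNReal.inv_ne_zero.mpr (ENNReal.natCast_ne_top _)
  -- the probability that no walker starts at `v`
  have hmiss : ∀ m (v : V), walkersLaw G m {X | ∀ i, X i 0 ≠ v} = q ^ m := by
    intro m v
    have h1 : {X : Fin m → ℕ → V | ∀ i, X i 0 ≠ v} = Set.pi Set.univ fun _ => {x : ℕ → V | x 0 = v}ᶜ := by
      ext X; simp
    have hm : MeasurableSet {X : ℕ → V | X 0 = v} :=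
      (MeasurableSet.singleton v).preimage (measurable_pi_apply 0)
    rw [h1, walkersLaw, Measure.pi_pi]
    simp only [prob_compl_eq_one_sub hm, srwUnifLaw_stationary G hG, Finset.prod_const,
      Finset.card_univ, Fintype.card_fin]
    rfl
  have hnot : ∀ m, walkersLaw G m {X | Covered k X}ᶜ ≤ Fintype.card V * q ^ m := by
    intro m
    have h1 : ({X | Covered k X}ᶜ : Set (Fin m → ℕ → V)) ⊆
        ⋃ v ∈ (Finset.univ : Finset V), {X | ∀ i, X i 0 ≠ v} := by
      intro X hX
      simp only [Set.mem_compl_iff, Set.mem_ofPred_eq, Covered] at hX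
      push Not at hX
      obtain ⟨v, hv⟩ := hX
      simp only [Finset.mem_univ, Set.iUnion_true, Set.mem_iUnion, Set.mem_ofPred_eq]
      exact ⟨v, fun i => hv i 0 (Nat.zero_le _)⟩
    refine (measure_mono h1).trans ((measure_biUnion_finset_le _ _).trans ?_)
    simp [hmiss]
  have hlim : Tendsto (fun m => (Fintype.card V : ℝ≥0∞) * q ^ m) atTop (𝓝 0) := by
    have h1 := ENNReal.Tendsto.const_mul (ENNReal.tendsto_pow_atTop_nhds_zero_of_lt_one hq1)
      (Or.inr (ENNReal.natCast_ne_top (Fintype.card V)))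
    simpa using h1
  obtain ⟨m, hm⟩ := ((tendsto_order.1 hlim).2 (1 / 2) (by simp)).exists
  refine ⟨m, ?_⟩
  have h2 : walkersLaw G m {X | Covered k X}ᶜ ≤ 1 / 2 := (hnot m).trans hm.le
  rw [prob_compl_eq_one_sub (measurableSet_covered m k)] at h2
  rw [tsub_le_iff_right] at h2
  by_contra hlt
  push Not at hlt
  have : (1 : ℝ≥0∞) < 1 / 2 + 1 / 2 := lt_of_le_of_lt h2 (by
    exact ENNReal.add_lt_add_left (by simp) hlt)
  rw [ENNReal.add_halves] at this
  exact lt_irrefl _ this

/-- For every transitive graph and every `k` there is a number `m` of walkers for which the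
cover time is `≤ k` with probability at least `1/2` and at most `1/2 + (k+1)/|V|`, and
`m ≥ |V| / (2 (k+1))`. -/
lemma exists_walkers (hG : VertexTransitive G) (k : ℕ) :
    ∃ m : ℕ, (Fintype.card V : ℝ) ≤ 2 * (k + 1) * m ∧
      1 / 2 ≤ walkersLaw G m {X | coverTime X ≤ k} ∧
      walkersLaw G m {X | coverTime X ≤ k} ≤
        1 / 2 + (k + 1 : ℕ) * (Fintype.card V : ℝ≥0∞)⁻¹ := by
  classical
  simp only [coverTime_le_iff]
  obtain hex := exists_half_le G hG k
  set m := Nat.find hex with hm
  have hm1 : 1 / 2 ≤ walkersLaw G m {X | Covered k X} := Nat.find_spec hex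
  have hm0 : m ≠ 0 := by
    intro h0
    rw [h0, covered_zero] at hm1
    simp at hm1
  obtain ⟨j, hj⟩ := Nat.exists_eq_succ_of_ne_zero hm0
  have hlt : walkersLaw G j {X | Covered k X} < 1 / 2 := by
    have := Nat.find_min hex (m := j) (by omega)
    push Not at this
    exact this
  refine ⟨m, ?_, hm1, ?_⟩
  · have h2 := hm1.trans (le_linear G hG m k)
    have hcard : (Fintype.card V : ℝ≥0∞) ≠ 0 := by exact_mod_cast Fintype.card_ne_zero
    have h3 : (1 / 2 : ℝ≥0∞) * Fintype.card V ≤ m * (k + 1 : ℕ) := by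
      calc (1 / 2 : ℝ≥0∞) * Fintype.card V
          ≤ (m * ((k + 1 : ℕ) * (Fintype.card V : ℝ≥0∞)⁻¹)) * Fintype.card V := by gcongr
        _ = m * (k + 1 : ℕ) * ((Fintype.card V : ℝ≥0∞)⁻¹ * Fintype.card V) := by ring
        _ = m * (k + 1 : ℕ) := by
            rw [ENNReal.inv_mul_cancel hcard (ENNReal.natCast_ne_top _), mul_one]
    have h4 := ENNReal.toReal_mono (by finiteness) h3
    simp only [one_div, ENNReal.toReal_mul, ENNReal.toReal_inv, ENNReal.toReal_ofNat,
      ENNReal.toReal_natCast] at h4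
    push_cast at h4
    linarith
  · rw [hj]
    refine (increment G hG j k).trans ?_
    gcongr

end

end Pool.Agent.MP4d31e4
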