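import Mathlib

/-!
# MP_4d31e4_pr : definitions

Simple random walk on a finite graph, the frog model and its susceptibility, and the cover time
of several independent simple random walks.
-/

open MeasureTheory ProbabilityTheory
open scoped ENNReal NNReal

namespace Pool.Agent.MP4d31e4

/-- `G` is vertex-transitive: for all vertices `u v` some automorphism maps `v` to `u`. -/
def VertexTransitive {V : Type*} (G : SimpleGraph V) : Prop :=
  ∀ u v : V, ∃ φ : G ≃g G, φ v = u

section Walk

variable {V : Type*}

open Classical in
/-- The law of one step of simple random walk from the vertex `w`: uniform on the set of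
neighbours of `w` (by convention the walk stays at `w` if `w` has no neighbour). -/
noncomputable def stepPMF [Fintype V] (G : SimpleGraph V) (w : V) : PMF V :=
  if h : (Finset.univ.filter fun y => G.Adj w y).Nonempty then
    PMF.uniformOfFinset (Finset.univ.filter fun y => G.Adj w y) h
  else PMF.pure w

/-- The law of a family of independent arrows `ω t w` (`t : ℕ` a time, `w : V` a vertex), where
`ω t w` has the law of one step of simple random walk from `w`. -/
noncomputable def arrowLaw [Fintype V] [MeasurableSpace V] (G : SimpleGraph V) :
    Measure (ℕ → V → V) :=
  Measure.infinitePi fun _ : ℕ => Measure.pi fun w : V => (stepPMF G w).toMeasure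

/-- The path started at `x` which, being at the vertex `w` at time `t`, is at `ω t w` at
time `t + 1`. -/
def walk (x : V) (ω : ℕ → V → V) : ℕ → V
  | 0 => x
  | t + 1 => ω t (walk x ω t)

/-- The law, on the path space `ℕ → V`, of simple random walk on `G` started at `x`
(see `srwLaw_cylinder` for its finite-dimensional distributions). -/
noncomputable def srwLaw [Fintype V] [MeasurableSpace V] (G : SimpleGraph V) (x : V) :
    Measure (ℕ → V) :=
  (arrowLaw G).map (walk x)

/-- The law of simple random walk on `G` started at a uniformly random vertex. -/
noncomputable def srwUnifLaw [Fintype V] [MeasurableSpace V] (G : SimpleGraph V) :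
    Measure (ℕ → V) :=
  (Fintype.card V : ℝ≥0∞)⁻¹ • ∑ x : V, srwLaw G x

end Walk

section Frog

variable {V : Type*}

/-- Particles of the frog model: `none` is the extra particle, which starts at `o`, and
`some (v, i)` is the `i`-th sleeping particle of the vertex `v` (present iff `i` is smaller than the
number of sleeping particles at `v`). -/
def start (o : V) : Option (V × ℕ) → V
  | none => o
  | some p => p.1

/-- The joint law of the numbers `N v` of sleeping particles (independent, Poisson with
parameter `lam`) and the paths `X p` of all particles `p` (independent of each other and of `N`,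
simple random walks from the starting vertices). Only the paths `X (some (v, i))` with
`i < N v` and `X none` are used below. -/
noncomputable def frogLaw [Fintype V] [MeasurableSpace V] (G : SimpleGraph V) (o : V)
    (lam : ℝ≥0) : Measure ((V → ℕ) × (Option (V × ℕ) → ℕ → V)) :=
  (Measure.pi fun _ : V => poissonMeasure lam).prod
    (Measure.infinitePi fun p : Option (V × ℕ) => srwLaw G (start o p))

/-- `Visited N X τ v`: the vertex `v` is visited by an active particle, for the lifetime `τ`.
The extra particle is active and walks the first `τ` steps of its path; if `v` is visited by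
an active particle then each of the `N v` sleeping particles at `v` becomes active and walks the
first `τ` steps of its path. -/
inductive Visited (N : V → ℕ) (X : Option (V × ℕ) → ℕ → V) (τ : ℕ) : V → Prop
  | extra (t : ℕ) (ht : t ≤ τ) : Visited N X τ (X none t)
  | wake (v : V) (i t : ℕ) (hv : Visited N X τ v) (hi : i < N v) (ht : t ≤ τ) :
      Visited N X τ (X (some (v, i)) t)

/-- The susceptibility: the least lifetime `τ` for which every vertex is visited
(`⊤` if there is none). -/
noncomputable def susc (ω : (V → ℕ) × (Option (V × ℕ) → ℕ → V)) : ℕ∞ :=
  ⨅ (τ : ℕ) (_ : ∀ v, Visited ω.1 ω.2 τ v), (τ : ℕ∞)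

end Frog

section Cover

variable {V : Type*}

/-- The law of `m` independent simple random walks, each started at an independent uniformly
random vertex. -/
noncomputable def walkersLaw [Fintype V] [MeasurableSpace V] (G : SimpleGraph V) (m : ℕ) :
    Measure (Fin m → ℕ → V) :=
  Measure.pi fun _ : Fin m => srwUnifLaw G

/-- The first time by which every vertex has been visited by at least one of the walks
(`⊤` if there is none). -/
noncomputable def coverTime {m : ℕ} (X : Fin m → ℕ → V) : ℕ∞ :=
  ⨅ (t : ℕ) (_ : ∀ v, ∃ i, ∃ s ≤ t, X i s = v), (t : ℕ∞)

end Cover

/-- The event `|s / a - 1| ≥ ε` for an extended natural number `s` and a real number `a`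
(it holds for `s = ⊤`; by Lean's convention `s / 0 = 0`). -/
def Deviates (s : ℕ∞) (a ε : ℝ) : Prop :=
  s = ⊤ ∨ ε ≤ |(s.toNat : ℝ) / a - 1|

/-- The expectation of an extended natural number valued random variable. -/
noncomputable def expect {Ω : Type*} [MeasurableSpace Ω] (P : Measure Ω) (S : Ω → ℕ∞) : ℝ≥0∞ :=
  ∫⁻ ω, (S ω : ℝ≥0∞) ∂P

end Pool.Agent.MP4d31e4
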