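import Pool.Agent.MP4d31e4.Walk

open MeasureTheory ProbabilityTheory
open scoped ENNReal NNReal

set_option linter.unusedSectionVars false

namespace Pool.Agent.MP4d31e4

lemma deviates_dichotomy (k : ℕ) (a : ℝ) :
    (∀ s : ℕ∞, s ≤ k → Deviates s a (1 / (2 * k + 1))) ∨
      (∀ s : ℕ∞, (k : ℕ∞) < s → Deviates s a (1 / (2 * k + 1))) := by
  have hk : (0 : ℝ) < 2 * k + 1 := by positivity
  by_cases ha : a ≤ (2 * k + 1) / 2
  · right
    intro s hs
    by_cases hst : s = ⊤
    · exact Or.inl hst
    right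
    have hs1 : (k : ℝ) + 1 ≤ s.toNat := by
      lift s to ℕ using hst
      have : k < s := by exact_mod_cast hs
      simp only [ENat.toNat_natCast]
      exact_mod_cast this
    by_cases ha0 : a ≤ 0
    · have h1 : (s.toNat : ℝ) / a ≤ 0 := div_nonpos_of_nonneg_of_nonpos (by positivity) ha0
      rw [abs_of_nonpos (by linarith)]
      have h2 : (1 : ℝ) / (2 * k + 1) ≤ 1 := by
        rw [div_le_one hk]; linarith [(Nat.cast_nonneg k : (0 : ℝ) ≤ k)]
      linarith
    · push Not at ha0
      refine le_trans ?_ (le_abs_self _)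
      rw [le_sub_iff_add_le, le_div_iff₀ ha0]
      have h3 : (1 / (2 * (k : ℝ) + 1) + 1) * a ≤ (1 / (2 * (k : ℝ) + 1) + 1) * ((2 * k + 1) / 2) :=
        mul_le_mul_of_nonneg_left ha (by positivity)
      have h4 : (1 / (2 * (k : ℝ) + 1) + 1) * ((2 * k + 1) / 2) = k + 1 := by
        field_simp; ring
      linarith
  · left
    push Not at ha
    intro s hs
    have hst : s ≠ ⊤ := ne_top_of_le_ne_top (ENat.natCast_ne_top k) hs
    right
    have hs1 : (s.toNat : ℝ) ≤ k := by
      lift s to ℕ using hst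
      have : s ≤ k := by exact_mod_cast hs
      simp only [ENat.toNat_natCast]
      exact_mod_cast this
    have ha0 : 0 < a := lt_trans (by positivity) ha
    rw [abs_sub_comm]
    refine le_trans ?_ (le_abs_self _)
    rw [le_sub_comm, div_le_iff₀ ha0]
    have h5 : (0 : ℝ) ≤ 1 - 1 / (2 * k + 1) := by
      rw [sub_nonneg, div_le_one hk]; linarith [(Nat.cast_nonneg k : (0 : ℝ) ≤ k)]
    have h3 : (1 - 1 / (2 * (k : ℝ) + 1)) * ((2 * k + 1) / 2) ≤ (1 - 1 / (2 * (k : ℝ) + 1)) * a :=
      mul_le_mul_of_nonneg_left ha.le h5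
    have h4 : (1 - 1 / (2 * (k : ℝ) + 1)) * ((2 * k + 1) / 2) = k := by
      field_simp; ring
    linarith

/-- If an extended natural number valued variable is `≤ k` and `> k` with probability at least `c`
each, then it deviates from every real number by a factor, with probability at least `c`. -/
lemma le_measure_deviates {Ω : Type*} [MeasurableSpace Ω] (P : Measure Ω) (S : Ω → ℕ∞) (k : ℕ)
    (c : ℝ≥0∞) (h1 : c ≤ P {ω | S ω ≤ k}) (h2 : c ≤ P {ω | (k : ℕ∞) < S ω}) (a : ℝ) :
    c ≤ P {ω | Deviates (S ω) a (1 / (2 * k + 1))} := by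
  rcases deviates_dichotomy k a with h | h
  · exact h1.trans (measure_mono fun ω hω => h _ hω)
  · exact h2.trans (measure_mono fun ω hω => h _ hω)

/-- the complete graph on `Fin (n+1)` is vertex-transitive -/
lemma vertexTransitive_top (W : Type*) [DecidableEq W] :
    VertexTransitive (⊤ : SimpleGraph W) := fun u v =>
  ⟨SimpleGraph.Iso.completeGraph (Equiv.swap v u), by simp [SimpleGraph.Iso.completeGraph]⟩

end Pool.Agent.MP4d31e4
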