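import Pool.Agent.MP4d31e4.FrogIVT
import Pool.Agent.MP4d31e4.Cover

open MeasureTheory ProbabilityTheory Filter
open scoped ENNReal NNReal Topology Nat

set_option linter.unusedSectionVars false

namespace Pool.Agent.MP4d31e4

section tail

variable {V : Type*} [Fintype V] [MeasurableSpace V] [DiscreteMeasurableSpace V]
variable (G : SimpleGraph V)

/-- arrow patterns using only edges of the graph -/
def Pos (pat : ℕ → V → V) : Prop := ∀ i w, stepPMF G w (pat i w) ≠ 0

lemma extend_pattern (x : V) {y u : V} (p : G.Walk y u) : ∀ (L : ℕ) (pat : ℕ → V → V),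
    Pos G pat → walk x pat L = y → ∃ L' ≥ L, ∃ pat' : ℕ → V → V, Pos G pat' ∧
      (∀ i < L, pat' i = pat i) ∧ walk x pat' L' = u := by
  classical
  induction p with
  | nil => exact fun L pat hp hy => ⟨L, le_rfl, pat, hp, fun _ _ => rfl, hy⟩
  | @cons y z u hadj p ih =>
    intro L pat hp hy
    let pat2 : ℕ → V → V := fun i w => if i = L ∧ w = y then z else pat i w
    have h2 : Pos G pat2 := by
      intro i w
      by_cases h : i = L ∧ w = y
      · simp only [pat2, if_pos h]
        rw [h.2]
        have := stepPMF_of_adj G hadj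
        intro h0
        rw [h0] at this
        simp at this
      · simp only [pat2, if_neg h]
        exact hp i w
    have hagree : ∀ i < L, pat2 i = pat i := by
      intro i hi
      funext w
      simp only [pat2]
      rw [if_neg (by omega)]
    have hw : walk x pat2 (L + 1) = z := by
      rw [walk_succ, walk_congr x L pat2 pat hagree, hy]
      simp [pat2]
    obtain ⟨L', hL', pat', hp', ha', hw'⟩ := ih (L + 1) pat2 h2 hw
    refine ⟨L', by omega, pat', hp', fun i hi => ?_, hw'⟩
    rw [ha' i (by omega), hagree i hi]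

lemma exists_pattern (hG : G.Connected) :
    ∃ (L : ℕ) (pat : ℕ → V → V), Pos G pat ∧ ∀ x u, ∃ s ≤ L, walk x pat s = u := by
  classical
  have key : ∀ T : Finset (V × V), ∃ (L : ℕ) (pat : ℕ → V → V), Pos G pat ∧
      ∀ p ∈ T, ∃ s ≤ L, walk p.1 pat s = p.2 := by
    intro T
    induction T using Finset.induction_on with
    | empty =>
      refine ⟨0, fun _ w => (stepPMF G w).support_nonempty.some, fun i w => ?_, by simp⟩
      exact (stepPMF G w).support_nonempty.some_mem
    | insert a T _ ih =>
      obtain ⟨L, pat, hp, hT⟩ := ih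
      obtain ⟨p⟩ := hG.preconnected (walk a.1 pat L) a.2
      obtain ⟨L', hL', pat', hp', ha', hw'⟩ := extend_pattern G a.1 p L pat hp rfl
      refine ⟨L', pat', hp', fun b hb => ?_⟩
      rcases Finset.mem_insert.mp hb with rfl | hb
      · exact ⟨L', le_rfl, hw'⟩
      · obtain ⟨s, hs, hws⟩ := hT b hb
        refine ⟨s, hs.trans hL', ?_⟩
        rw [walk_congr b.1 s pat' pat fun i hi => ha' i (by omega)]
        exact hws
  obtain ⟨L, pat, hp, h⟩ := key Finset.univ
  exact ⟨L, pat, hp, fun x u => h (x, u) (Finset.mem_univ _)⟩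

lemma walk_add (x : V) (ω : ℕ → V → V) (t s : ℕ) :
    walk x ω (t + s) = walk (walk x ω t) (fun i => ω (t + i)) s := by
  induction s with
  | zero => rfl
  | succ s ih => rw [← add_assoc, walk_succ, walk_succ, ih]

/-- no full copy of the pattern in the first `J` blocks -/
def noPat (L : ℕ) (pat : ℕ → V → V) (J : ℕ) : Set (ℕ → V → V) :=
  {ω | ∀ j < J, ∃ i < L, ω (j * L + i) ≠ pat i}

lemma measure_noPat (L : ℕ) (pat : ℕ → V → V) (hpos : Pos G pat) :
    ∃ r : ℝ≥0∞, r < 1 ∧ ∀ J, arrowLaw G (noPat L pat J) ≤ r ^ J := by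
  classical
  set μ : Measure (V → V) := Measure.pi fun w : V => (stepPMF G w).toMeasure with hμ
  set δ : ℝ≥0∞ := ∏ i ∈ Finset.range L, μ {pat i} with hδ
  have hδ0 : δ ≠ 0 := by
    rw [hδ, Finset.prod_ne_zero_iff]
    intro i _
    rw [hμ, Measure.pi_singleton, Finset.prod_ne_zero_iff]
    intro w _
    rw [PMF.toMeasure_apply_singleton _ _ (MeasurableSet.singleton _)]
    exact hpos i w
  refine ⟨1 - δ, ENNReal.sub_lt_self ENNReal.one_ne_top one_ne_zero hδ0, ?_⟩
  intro J
  induction J with
  | zero => rw [pow_zero]; exact prob_le_one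
  | succ J ih =>
    have hind : iIndepFun (fun (i : ℕ) (ω : ℕ → V → V) => ω i) (arrowLaw G) :=
      iIndepFun_infinitePi (X := fun (_ : ℕ) (f : V → V) => f) (fun _ => measurable_id)
    have hdisj : Disjoint (Finset.range (J * L)) (Finset.Ico (J * L) (J * L + L)) := by
      rw [Finset.disjoint_left]
      intro a ha hb
      simp only [Finset.mem_range, Finset.mem_Ico] at ha hb
      omega
    have hind2 := hind.indepFun_finset (Finset.range (J * L)) (Finset.Ico (J * L) (J * L + L))
      hdisj (fun i => measurable_pi_apply i)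
    let S1 : Set ((i : Finset.range (J * L)) → V → V) :=
      {r | ∀ j < J, ∃ i < L, ∃ h : j * L + i ∈ Finset.range (J * L), r ⟨j * L + i, h⟩ ≠ pat i}
    let S2 : Set ((i : Finset.Ico (J * L) (J * L + L)) → V → V) :=
      {r | ∃ i < L, ∃ h : J * L + i ∈ Finset.Ico (J * L) (J * L + L), r ⟨J * L + i, h⟩ ≠ pat i}
    have h1 := hind2.measure_inter_preimage_eq_mul S1 S2 (MeasurableSet.of_discrete)
      (MeasurableSet.of_discrete)
    have e1 : (fun (a : ℕ → V → V) (i : Finset.range (J * L)) => a i) ⁻¹' S1 = noPat L pat J := by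
      ext ω
      simp only [S1, noPat, Set.mem_preimage, Set.mem_ofPred_eq]
      constructor
      · intro h j hj
        obtain ⟨i, hi, _, hne⟩ := h j hj
        exact ⟨i, hi, hne⟩
      · intro h j hj
        obtain ⟨i, hi, hne⟩ := h j hj
        refine ⟨i, hi, ?_, hne⟩
        rw [Finset.mem_range]
        calc j * L + i < j * L + L := by omega
          _ = (j + 1) * L := by ring
          _ ≤ J * L := Nat.mul_le_mul_right _ hj
    have e2 : (fun (a : ℕ → V → V) (i : Finset.Ico (J * L) (J * L + L)) => a i) ⁻¹' S2 =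
        {ω | ∃ i < L, ω (J * L + i) ≠ pat i} := by
      ext ω
      simp only [S2, Set.mem_preimage, Set.mem_ofPred_eq]
      constructor
      · rintro ⟨i, hi, _, hne⟩
        exact ⟨i, hi, hne⟩
      · rintro ⟨i, hi, hne⟩
        exact ⟨i, hi, by simp [hi], hne⟩
    rw [e1, e2] at h1
    have e3 : noPat L pat (J + 1) = noPat L pat J ∩ {ω | ∃ i < L, ω (J * L + i) ≠ pat i} := by
      ext ω
      simp only [noPat, Set.mem_ofPred_eq, Set.mem_inter_iff]
      constructor
      · intro h
        exact ⟨fun j hj => h j (by omega), h J (by omega)⟩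
      · rintro ⟨h, h'⟩ j hj
        rcases Nat.lt_succ_iff_lt_or_eq.mp hj with hj | rfl
        · exact h j hj
        · exact h'
    have e4 : arrowLaw G {ω | ∃ i < L, ω (J * L + i) ≠ pat i} = 1 - δ := by
      let I : Finset ℕ := (Finset.range L).image fun i => J * L + i
      have hset : {ω : ℕ → V → V | ∃ i < L, ω (J * L + i) ≠ pat i} =
          (Set.pi (I : Set ℕ) fun m => {pat (m - J * L)})ᶜ := by
        ext ω
        simp [I, Set.mem_pi]
      have hms : MeasurableSet (Set.pi (I : Set ℕ) fun m => ({pat (m - J * L)} : Set (V → V))) :=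
        MeasurableSet.pi (Finset.countable_toSet _) fun _ _ => MeasurableSet.singleton _
      rw [hset, prob_compl_eq_one_sub hms, arrowLaw,
        Measure.infinitePi_pi _ fun _ _ => MeasurableSet.singleton _]
      congr 1
      rw [Finset.prod_image (by intro a _ b _ hab; simpa using hab), hδ]
      refine Finset.prod_congr rfl fun i _ => ?_
      simp [hμ]
    rw [e3, h1, e4, pow_succ]
    gcongr

/-- the walk has not visited all vertices by time `t` -/
def notCov (t : ℕ) : Set (ℕ → V) := {X | ¬ ∀ v, ∃ s ≤ t, X s = v}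

lemma measurableSet_notCov (t : ℕ) : MeasurableSet (notCov (V := V) t) := by
  have : notCov (V := V) t = (⋂ v, ⋃ s ∈ Set.Iic t, {X : ℕ → V | X s = v})ᶜ := by
    ext X
    simp [notCov]
  rw [this]
  exact (MeasurableSet.iInter fun v => MeasurableSet.biUnion (Set.to_countable _) fun s _ =>
    (MeasurableSet.singleton v).preimage (measurable_pi_apply s)).compl

lemma notCov_anti {s t : ℕ} (h : s ≤ t) : notCov (V := V) t ⊆ notCov s := by
  intro X hX hc
  exact hX fun v => by
    obtain ⟨r, hr, hv⟩ := hc v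
    exact ⟨r, hr.trans h, hv⟩

/-- exponential tail of the cover time -/
lemma exists_tail (hG : G.Connected) :
    ∃ (L : ℕ) (r : ℝ≥0∞), r < 1 ∧ ∀ x J, srwLaw G x (notCov (J * L)) ≤ r ^ J := by
  obtain ⟨L, pat, hpos, hpat⟩ := exists_pattern G hG
  obtain ⟨r, hr, hJ⟩ := measure_noPat G L pat hpos
  refine ⟨L, r, hr, fun x J => ?_⟩
  rw [srwLaw, Measure.map_apply (measurable_walk x) (measurableSet_notCov _)]
  refine (measure_mono ?_).trans (hJ J)
  intro ω hω
  simp only [Set.mem_preimage, notCov, Set.mem_ofPred_eq] at hω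
  intro j hj
  by_contra hcon
  push Not at hcon
  refine hω fun v => ?_
  obtain ⟨s, hs, hsv⟩ := hpat (walk x ω (j * L)) v
  refine ⟨j * L + s, ?_, ?_⟩
  · calc j * L + s ≤ j * L + L := by omega
      _ = (j + 1) * L := by ring
      _ ≤ J * L := Nat.mul_le_mul_right _ hj
  · rw [walk_add, walk_congr _ s _ pat fun i hi => hcon i (by omega)]
    exact hsv

lemma coe_eq_tsum (s : ℕ∞) : (s : ℝ≥0∞) = ∑' t : ℕ, if (t : ℕ∞) < s then (1 : ℝ≥0∞) else 0 := by
  induction s using ENat.recTopCoe with
  | top =>
    simp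
  | coe n =>
    rw [tsum_eq_sum (s := Finset.range n)]
    · rw [Finset.sum_congr rfl (g := fun _ => (1 : ℝ≥0∞))]
      · simp
      · intro t ht
        rw [if_pos]
        exact_mod_cast Finset.mem_range.mp ht
    · intro t ht
      rw [if_neg]
      intro h
      exact ht (Finset.mem_range.mpr (by exact_mod_cast h))

/-- A variable bounded by the cover time of a simple random walk has finite expectation. -/
lemma expect_lt_top (hG : G.Connected) {Ω : Type*} [MeasurableSpace Ω] (P : Measure Ω)
    (S : Ω → ℕ∞) (X : Ω → ℕ → V) (hX : Measurable X)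
    (hlaw : ∀ t, P {ω | X ω ∈ notCov t} ≤ ⨆ x, srwLaw G x (notCov t))
    (hS : ∀ (t : ℕ) ω, (t : ℕ∞) < S ω → X ω ∈ notCov t) :
    expect P S < ⊤ := by
  classical
  obtain ⟨L, r, hr, htail⟩ := exists_tail G hG
  have h1 : expect P S ≤ ∑' t : ℕ, P {ω | X ω ∈ notCov t} := by
    unfold expect
    have h2 : ∀ ω, (S ω : ℝ≥0∞) ≤
        ∑' t : ℕ, ({ω | X ω ∈ notCov t} : Set Ω).indicator (fun _ => (1 : ℝ≥0∞)) ω := by
      intro ω
      rw [coe_eq_tsum]
      refine ENNReal.tsum_le_tsum fun t => ?_
      split_ifs with h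
      · rw [Set.indicator_of_mem (by exact hS t ω h)]
      · exact zero_le
    refine (lintegral_mono h2).trans ?_
    have hm : ∀ t, MeasurableSet {ω | X ω ∈ notCov (V := V) t} := fun t =>
      (measurableSet_notCov t).preimage hX
    rw [lintegral_tsum fun t => (measurable_const.indicator (hm t)).aemeasurable]
    refine ENNReal.tsum_le_tsum fun t => ?_
    rw [lintegral_indicator_const (hm t), one_mul]
  refine h1.trans_lt ?_
  by_cases hL : L = 0
  · -- then the walk covers at time `0`
    have h0 : ∀ t, P {ω | X ω ∈ notCov (V := V) t} = 0 := by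
      intro t
      have h3 : ∀ x, srwLaw G x (notCov (V := V) t) = 0 := by
        intro x
        have h4 : ∀ J, srwLaw G x (notCov (V := V) t) ≤ r ^ J := by
          intro J
          refine (measure_mono (notCov_anti (Nat.zero_le t))).trans ?_
          have := htail x J
          rwa [hL, mul_zero] at this
        have h5 := ge_of_tendsto' (ENNReal.tendsto_pow_atTop_nhds_zero_of_lt_one hr) h4
        exact le_antisymm h5 zero_le
      have := hlaw t
      simp only [h3] at this
      simpa using this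
    simp [h0]
  · have hLpos : 0 < L := Nat.pos_of_ne_zero hL
    have h2 : ∀ t, P {ω | X ω ∈ notCov (V := V) t} ≤ r ^ (t / L) := by
      intro t
      refine (hlaw t).trans (iSup_le fun x => ?_)
      refine (measure_mono (notCov_anti (Nat.div_mul_le_self t L))).trans (htail x _)
    refine (ENNReal.tsum_le_tsum h2).trans_lt ?_
    -- regroup
    have h3 : ∑' t : ℕ, r ^ (t / L) = ∑' p : ℕ × Fin L, r ^ p.1 := by
      have : NeZero L := ⟨hL⟩
      rw [← (Nat.divModEquiv L).symm.tsum_eq]
      refine tsum_congr fun p => ?_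
      congr 1
      simp only [Nat.divModEquiv, Equiv.coe_fn_symm_mk]
      rw [Nat.add_div_of_dvd_right (Dvd.intro_left _ rfl), Nat.mul_div_cancel _ hLpos,
        Nat.div_eq_of_lt p.2.2, add_zero]
    have h4 := ENNReal.tsum_prod (f := fun (a : ℕ) (_ : Fin L) => r ^ a)
    rw [h3, h4]
    simp only [tsum_fintype, Finset.sum_const, Finset.card_univ, Fintype.card_fin, nsmul_eq_mul]
    rw [ENNReal.tsum_mul_left, ENNReal.tsum_geometric]
    refine ENNReal.mul_lt_top (ENNReal.natCast_lt_top L) ?_
    rw [ENNReal.inv_lt_top]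
    exact tsub_pos_of_lt hr

/-- `E[S] < ∞` -/
theorem expect_susc_lt_top (hG : G.Connected) (o : V) (lam : ℝ≥0) :
    expect (frogLaw G o lam) susc < ⊤ := by
  have hm : Measurable fun ω : (V → ℕ) × (Option (V × ℕ) → ℕ → V) => ω.2 none :=
    (measurable_pi_apply none).comp measurable_snd
  refine expect_lt_top G hG _ susc (fun ω => ω.2 none) hm (fun t => ?_) (fun t ω h => ?_)
  · refine le_trans (le_of_eq ?_) (le_iSup (fun x => srwLaw G x (notCov t)) o)
    have h2 : {ω : (V → ℕ) × (Option (V × ℕ) → ℕ → V) | ω.2 none ∈ notCov t} =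
        Set.univ ×ˢ ((fun X : Option (V × ℕ) → ℕ → V => X none) ⁻¹' notCov t) := by
      ext ω; simp
    rw [h2, frogLaw, Measure.prod_prod, measure_univ, one_mul]
    exact (measurePreserving_eval_infinitePi
      (fun p : Option (V × ℕ) => srwLaw G (start o p)) none).measure_preimage
      (measurableSet_notCov t).nullMeasurableSet
  · intro hc
    have : susc ω ≤ (t : ℕ∞) := (susc_le_iff t ω).mpr fun v => by
      obtain ⟨s, hs, rfl⟩ := hc v
      exact Visited.extra s hs
    exact absurd h (not_lt.mpr this)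

/-- `E[D] < ∞` as soon as there is at least one walker -/
theorem expect_coverTime_lt_top (hG : G.Connected) (m : ℕ) (hm : 0 < m) :
    expect (walkersLaw G m) coverTime < ⊤ := by
  have hne : Nonempty V := hG.nonempty
  have hmX : Measurable fun X : Fin m → ℕ → V => X ⟨0, hm⟩ := measurable_pi_apply _
  refine expect_lt_top G hG _ coverTime (fun X => X ⟨0, hm⟩) hmX (fun t => ?_) (fun t X h => ?_)
  · have h1 : walkersLaw G m {X | X ⟨0, hm⟩ ∈ notCov t} = srwUnifLaw G (notCov t) :=
      (measurePreserving_eval (fun _ : Fin m => srwUnifLaw G) ⟨0, hm⟩).measure_preimage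
        (measurableSet_notCov t).nullMeasurableSet
    rw [h1, srwUnifLaw_apply]
    have hcard : (Fintype.card V : ℝ≥0∞) ≠ 0 := by exact_mod_cast Fintype.card_ne_zero
    calc (Fintype.card V : ℝ≥0∞)⁻¹ * ∑ x : V, srwLaw G x (notCov t)
        ≤ (Fintype.card V : ℝ≥0∞)⁻¹ * ∑ _x : V, ⨆ x, srwLaw G x (notCov t) := by
          gcongr with x _
          exact le_iSup (fun x => srwLaw G x (notCov t)) x
      _ = _ := by
          rw [Finset.sum_const, Finset.card_univ, nsmul_eq_mul, ← mul_assoc,
            ENNReal.inv_mul_cancel hcard (ENNReal.natCast_ne_top _), one_mul]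
  · intro hc
    have : coverTime X ≤ (t : ℕ∞) := (coverTime_le_iff t X).mpr fun v => by
      obtain ⟨s, hs, hv⟩ := hc v
      exact ⟨⟨0, hm⟩, s, hs, hv⟩
    exact absurd h (not_lt.mpr this)

end tail

end Pool.Agent.MP4d31e4
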