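import Pool.Agent.MP4d31e4.Dev

open MeasureTheory ProbabilityTheory Filter
open scoped ENNReal NNReal Topology Nat

set_option linter.unusedSectionVars false

namespace Pool.Agent.MP4d31e4

section comb

variable {V : Type*}

lemma Visited.mono {N : V → ℕ} {X : Option (V × ℕ) → ℕ → V} {τ τ' : ℕ} (h : τ ≤ τ') {v : V}
    (hv : Visited N X τ v) : Visited N X τ' v := by
  induction hv with
  | extra t ht => exact Visited.extra t (ht.trans h)
  | wake v i t _ hi ht ih => exact Visited.wake v i t ih hi (ht.trans h)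

lemma susc_le_iff (k : ℕ) (ω : (V → ℕ) × (Option (V × ℕ) → ℕ → V)) :
    susc ω ≤ k ↔ ∀ v, Visited ω.1 ω.2 k v := by
  constructor
  · intro h
    have h1 : susc ω < (k + 1 : ℕ) := by
      refine lt_of_le_of_lt h ?_
      exact_mod_cast Nat.lt_succ_self k
    simp only [susc, iInf_lt_iff] at h1
    obtain ⟨t, ht, htk⟩ := h1
    have htk' : t ≤ k := by
      have : t < k + 1 := by exact_mod_cast htk
      omega
    intro v
    exact (ht v).mono htk'
  · intro h
    exact iInf₂_le k h

/-- stages of the exploration -/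
def reach (N : V → ℕ) (X : Option (V × ℕ) → ℕ → V) (τ : ℕ) : ℕ → V → Prop
  | 0, v => ∃ t ≤ τ, X none t = v
  | j + 1, v => reach N X τ j v ∨
      ∃ w, ∃ i, ∃ t ≤ τ, i < N w ∧ reach N X τ j w ∧ X (some (w, i)) t = v

lemma visited_iff_reach (N : V → ℕ) (X : Option (V × ℕ) → ℕ → V) (τ : ℕ) (v : V) :
    Visited N X τ v ↔ ∃ j, reach N X τ j v := by
  constructor
  · intro h
    induction h with
    | extra t ht => exact ⟨0, t, ht, rfl⟩
    | wake v i t _ hi ht ih =>
      obtain ⟨j, hj⟩ := ih
      exact ⟨j + 1, Or.inr ⟨v, i, t, ht, hi, hj, rfl⟩⟩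
  · rintro ⟨j, hj⟩
    induction j generalizing v with
    | zero =>
      obtain ⟨t, ht, rfl⟩ := hj
      exact Visited.extra t ht
    | succ j ih =>
      rcases hj with hj | ⟨w, i, t, ht, hi, hw, rfl⟩
      · exact ih v hj
      · exact Visited.wake w i t (ih w hw) hi ht

/-- a visited vertex is on the first `τ` steps of the path of some existing particle -/
lemma visited_mem {N : V → ℕ} {X : Option (V × ℕ) → ℕ → V} {τ : ℕ} {v : V}
    (h : Visited N X τ v) :
    (∃ t ≤ τ, X none t = v) ∨ ∃ w, ∃ i < N w, ∃ t ≤ τ, X (some (w, i)) t = v := by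
  cases h with
  | extra t ht => exact Or.inl ⟨t, ht, rfl⟩
  | wake w i t _ hi ht => exact Or.inr ⟨w, i, hi, t, ht, rfl⟩

lemma card_le_of_susc_le [Fintype V] (k : ℕ) (ω : (V → ℕ) × (Option (V × ℕ) → ℕ → V))
    (h : susc ω ≤ k) : Fintype.card V ≤ (k + 1) * (1 + ∑ v, ω.1 v) := by
  classical
  rw [susc_le_iff] at h
  -- surjection from particles × times
  let f : Option ((v : V) × Fin (ω.1 v)) × Fin (k + 1) → V := fun p =>
    match p with
    | (none, t) => ω.2 none t
    | (some ⟨v, i⟩, t) => ω.2 (some (v, (i : ℕ))) t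
  have hf : Function.Surjective f := by
    intro v
    rcases visited_mem (h v) with ⟨t, ht, hv⟩ | ⟨w, i, hi, t, ht, hv⟩
    · exact ⟨(none, ⟨t, by omega⟩), hv⟩
    · exact ⟨(some ⟨w, ⟨i, hi⟩⟩, ⟨t, by omega⟩), hv⟩
  have := Fintype.card_le_of_surjective f hf
  simp only [Fintype.card_prod, Fintype.card_option, Fintype.card_sigma, Fintype.card_fin] at this
  calc Fintype.card V ≤ _ := this
    _ = _ := by ring

end comb

section meas

variable {V : Type*} [Fintype V] [MeasurableSpace V] [DiscreteMeasurableSpace V]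

lemma measurableSet_reach (τ j : ℕ) (v : V) :
    MeasurableSet {ω : (V → ℕ) × (Option (V × ℕ) → ℕ → V) | reach ω.1 ω.2 τ j v} := by
  have hX : ∀ (p : Option (V × ℕ)) (t : ℕ) (v : V),
      MeasurableSet {ω : (V → ℕ) × (Option (V × ℕ) → ℕ → V) | ω.2 p t = v} := by
    intro p t v
    have hm : Measurable fun ω : (V → ℕ) × (Option (V × ℕ) → ℕ → V) => ω.2 p t :=
      (measurable_pi_apply t).comp ((measurable_pi_apply p).comp measurable_snd)
    exact hm (MeasurableSet.singleton v)
  induction j generalizing v with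
  | zero =>
    have : {ω : (V → ℕ) × (Option (V × ℕ) → ℕ → V) | reach ω.1 ω.2 τ 0 v} =
        ⋃ t ∈ Set.Iic τ, {ω | ω.2 none t = v} := by
      ext ω; simp [reach]
    rw [this]
    exact MeasurableSet.biUnion (Set.to_countable _) fun t _ => hX _ _ _
  | succ j ih =>
    have : {ω : (V → ℕ) × (Option (V × ℕ) → ℕ → V) | reach ω.1 ω.2 τ (j + 1) v} =
        {ω | reach ω.1 ω.2 τ j v} ∪ ⋃ w, ⋃ i, ⋃ t ∈ Set.Iic τ,
          ({ω | i < ω.1 w} ∩ ({ω | reach ω.1 ω.2 τ j w} ∩ {ω | ω.2 (some (w, i)) t = v})) := by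
      ext ω
      simp only [Set.mem_ofPred_eq, Set.mem_union, Set.mem_iUnion, Set.mem_Iic, Set.mem_inter_iff,
        exists_prop]
      exact Iff.rfl
    rw [this]
    refine (ih v).union (MeasurableSet.iUnion fun w => MeasurableSet.iUnion fun i =>
      MeasurableSet.biUnion (Set.to_countable _) fun t _ => ?_)
    have hN : Measurable fun ω : (V → ℕ) × (Option (V × ℕ) → ℕ → V) => ω.1 w :=
      (measurable_pi_apply w).comp measurable_fst
    exact ((MeasurableSet.of_discrete (s := {n : ℕ | i < n})).preimage hN).inter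
      ((ih w).inter (hX _ _ _))

lemma measurableSet_susc_le (k : ℕ) :
    MeasurableSet {ω : (V → ℕ) × (Option (V × ℕ) → ℕ → V) | susc ω ≤ k} := by
  have : {ω : (V → ℕ) × (Option (V × ℕ) → ℕ → V) | susc ω ≤ k} =
      ⋂ v, ⋃ j, {ω | reach ω.1 ω.2 k j v} := by
    ext ω
    simp [susc_le_iff, visited_iff_reach]
  rw [this]
  exact MeasurableSet.iInter fun v => MeasurableSet.iUnion fun j => measurableSet_reach k j v

variable (G : SimpleGraph V) (o : V)

instance (lam : ℝ≥0) : IsProbabilityMeasure (frogLaw G o lam) := by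
  unfold frogLaw; infer_instance

/-- mean of the Poisson distribution -/
lemma lintegral_poisson (lam : ℝ≥0) : ∫⁻ n, (n : ℝ≥0∞) ∂(poissonMeasure lam) = lam := by
  rw [lintegral_countable']
  simp only [poissonMeasure_singleton]
  rw [tsum_eq_zero_add' ENNReal.summable]
  simp only [Nat.cast_zero, zero_mul, zero_add]
  have h1 : ∀ n : ℕ, ((n + 1 : ℕ) : ℝ≥0∞) *
      ENNReal.ofReal (Real.exp (-lam) * lam ^ (n + 1) / (n + 1)!) =
      lam * ENNReal.ofReal (Real.exp (-lam) * lam ^ n / n !) := by
    intro n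
    rw [← ENNReal.ofReal_natCast, ← ENNReal.ofReal_mul (by positivity),
      ← ENNReal.ofReal_coe_nnreal, ← ENNReal.ofReal_mul (by positivity)]
    congr 1
    rw [Nat.factorial_succ]
    push_cast
    field_simp
    ring
  simp only [h1]
  rw [ENNReal.tsum_mul_left]
  have h2 : ∑' n : ℕ, ENNReal.ofReal (Real.exp (-lam) * lam ^ n / n !) = 1 := by
    rw [← ENNReal.ofReal_tsum_of_nonneg (fun n => by positivity)
      (hasSum_one_poissonMeasure lam).summable, (hasSum_one_poissonMeasure lam).tsum_eq]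
    simp
  rw [h2, mul_one]

lemma frogLaw_map_count (lam : ℝ≥0) (v : V) :
    (frogLaw G o lam).map (fun ω => ω.1 v) = poissonMeasure lam := by
  have h1 : (fun ω : (V → ℕ) × (Option (V × ℕ) → ℕ → V) => ω.1 v) =
      (fun N : V → ℕ => N v) ∘ Prod.fst := rfl
  rw [h1, ← Measure.map_map (measurable_pi_apply v) measurable_fst, frogLaw,
    Measure.map_fst_prod]
  simp only [measure_univ, one_smul]
  exact (measurePreserving_eval (fun _ : V => poissonMeasure lam) v).map_eq

lemma lintegral_count (lam : ℝ≥0) (v : V) :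
    ∫⁻ ω, (ω.1 v : ℝ≥0∞) ∂(frogLaw G o lam) = lam := by
  have hm : Measurable fun ω : (V → ℕ) × (Option (V × ℕ) → ℕ → V) => ω.1 v :=
    (measurable_pi_apply v).comp measurable_fst
  rw [← lintegral_poisson lam, ← frogLaw_map_count G o lam v, lintegral_map .of_discrete hm]

/-- Markov's inequality for the number of particles -/
lemma markov (lam : ℝ≥0) (k : ℕ) :
    Fintype.card V * frogLaw G o lam {ω | susc ω ≤ k} ≤
      (k + 1 : ℕ) * (frogLaw G o lam {ω | susc ω ≤ k} + Fintype.card V * lam) := by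
  set A := {ω : (V → ℕ) × (Option (V × ℕ) → ℕ → V) | susc ω ≤ k} with hA
  have hAm : MeasurableSet A := measurableSet_susc_le k
  have hmN : ∀ v : V, Measurable fun ω : (V → ℕ) × (Option (V × ℕ) → ℕ → V) =>
      (ω.1 v : ℝ≥0∞) := fun v =>
    (Measurable.of_discrete (f := fun n : ℕ => (n : ℝ≥0∞))).comp
      ((measurable_pi_apply v).comp measurable_fst)
  have h1 : ∫⁻ ω, A.indicator (fun _ => (Fintype.card V : ℝ≥0∞)) ω ∂(frogLaw G o lam) ≤
      ∫⁻ ω, (k + 1 : ℕ) * (A.indicator (fun _ => 1) ω + ∑ v, (ω.1 v : ℝ≥0∞))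
        ∂(frogLaw G o lam) := by
    apply lintegral_mono
    intro ω
    by_cases h : ω ∈ A
    · simp only [Set.indicator_of_mem h]
      have := card_le_of_susc_le k ω h
      exact_mod_cast this
    · simp only [Set.indicator_of_notMem h]
      exact zero_le
  rw [lintegral_indicator_const hAm, lintegral_const_mul _ (by
      exact (measurable_const.indicator hAm).add (Finset.measurable_sum _ fun v _ => hmN v)),
    lintegral_add_left (measurable_const.indicator hAm), lintegral_indicator_const hAm,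
    lintegral_finsetSum _ fun v _ => hmN v] at h1
  simp only [lintegral_count, Finset.sum_const, Finset.card_univ, nsmul_eq_mul, one_mul] at h1
  exact h1

end meas

end Pool.Agent.MP4d31e4
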