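import Pool.Agent.MP4d31e4.Frog

open MeasureTheory ProbabilityTheory Filter
open scoped ENNReal NNReal Topology Nat

set_option linter.unusedSectionVars false

namespace Pool.Agent.MP4d31e4

section meas

variable {V : Type*} [Fintype V] [MeasurableSpace V] [DiscreteMeasurableSpace V]
variable (G : SimpleGraph V) (o : V)

/-- weight of the configuration `N` under the product Poisson law -/
noncomputable def wt (x : ℝ) (N : V → ℕ) : ℝ := ∏ v, (Real.exp (-x) * x ^ (N v) / (N v)!)

lemma pi_poisson_singleton (lam : ℝ≥0) (N : V → ℕ) :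
    (Measure.pi fun _ : V => poissonMeasure lam) {N} = ENNReal.ofReal (wt lam N) := by
  rw [Measure.pi_singleton]
  simp only [poissonMeasure_singleton, wt]
  rw [ENNReal.ofReal_prod_of_nonneg]
  intro v _
  positivity

lemma frogLaw_apply (lam : ℝ≥0) {A : Set ((V → ℕ) × (Option (V × ℕ) → ℕ → V))}
    (hA : MeasurableSet A) :
    (frogLaw G o lam A).toReal = ∑' N : V → ℕ,
      ((Measure.infinitePi fun p : Option (V × ℕ) => srwLaw G (start o p))
        (Prod.mk N ⁻¹' A)).toReal * wt lam N := by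
  rw [frogLaw, Measure.prod_apply hA, lintegral_countable']
  rw [ENNReal.tsum_toReal_eq]
  · refine tsum_congr fun N => ?_
    rw [ENNReal.toReal_mul, pi_poisson_singleton, ENNReal.toReal_ofReal]
    exact Finset.prod_nonneg fun v _ => by positivity
  · intro N
    exact ENNReal.mul_ne_top (measure_ne_top _ _) (measure_ne_top _ _)

lemma summable_wt (lam : ℝ≥0) : Summable fun N : V → ℕ => wt (lam : ℝ) N := by
  have h1 : ∑' N : V → ℕ, (Measure.pi fun _ : V => poissonMeasure lam) {N} ≠ ⊤ := by
    have := lintegral_countable' (μ := Measure.pi fun _ : V => poissonMeasure lam)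
      (fun _ : V → ℕ => (1 : ℝ≥0∞))
    simp only [one_mul, lintegral_const, measure_univ] at this
    rw [← this]
    exact ENNReal.one_ne_top
  have h2 := ENNReal.summable_toReal h1
  refine h2.congr fun N => ?_
  rw [pi_poisson_singleton, ENNReal.toReal_ofReal]
  exact Finset.prod_nonneg fun v _ => by positivity

/-- continuity in the density -/
lemma continuousOn_prob {A : Set ((V → ℕ) × (Option (V × ℕ) → ℕ → V))}
    (hA : MeasurableSet A) (L : ℝ≥0) :
    ContinuousOn (fun x : ℝ => (frogLaw G o x.toNNReal A).toReal) (Set.Icc 0 (L : ℝ)) := by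
  have h1 : ∀ x ∈ Set.Icc 0 (L : ℝ), (frogLaw G o x.toNNReal A).toReal =
      ∑' N : V → ℕ, ((Measure.infinitePi fun p : Option (V × ℕ) => srwLaw G (start o p))
        (Prod.mk N ⁻¹' A)).toReal * wt x N := by
    intro x hx
    rw [frogLaw_apply G o _ hA, Real.coe_toNNReal _ hx.1]
  refine ContinuousOn.congr ?_ h1
  have hsum : Summable fun N : V → ℕ => Real.exp (L * Fintype.card V) * wt (L : ℝ) N :=
    (summable_wt L).mul_left _
  refine continuousOn_tsum (fun N => ?_) hsum ?_
  · unfold wt
    fun_prop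
  · intro N x hx
    have hq : ((Measure.infinitePi fun p : Option (V × ℕ) => srwLaw G (start o p))
        (Prod.mk N ⁻¹' A)).toReal ≤ 1 := by
      have := prob_le_one (μ := Measure.infinitePi fun p : Option (V × ℕ) => srwLaw G (start o p))
        (s := Prod.mk N ⁻¹' A)
      exact ENNReal.toReal_mono ENNReal.one_ne_top this
    have hw0 : 0 ≤ wt x N := Finset.prod_nonneg fun v _ => by
      have := hx.1
      positivity
    rw [Real.norm_of_nonneg (mul_nonneg ENNReal.toReal_nonneg hw0)]
    calc _ ≤ 1 * wt x N := by gcongr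
      _ = wt x N := one_mul _
      _ ≤ ∏ v, ((L : ℝ) ^ (N v) / (N v)!) := by
          unfold wt
          refine Finset.prod_le_prod (fun v _ => by have := hx.1; positivity) fun v _ => ?_
          have hx0 := hx.1
          have hxL := hx.2
          have he : Real.exp (-x) ≤ 1 := by
            rw [Real.exp_le_one_iff]; linarith
          calc Real.exp (-x) * x ^ (N v) / (N v)! ≤ 1 * (L : ℝ) ^ (N v) / (N v)! := by gcongr
            _ = _ := by rw [one_mul]
      _ = Real.exp (L * Fintype.card V) * wt (L : ℝ) N := by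
          unfold wt
          simp only [mul_div_assoc]
          rw [Finset.prod_mul_distrib, Finset.prod_const, Finset.card_univ, ← mul_assoc,
            ← Real.exp_nat_mul, ← Real.exp_add]
          have : (L : ℝ) * Fintype.card V + Fintype.card V * -(L : ℝ) = 0 := by ring
          rw [this, Real.exp_zero, one_mul]

/-- the event that no sleeping particle of `v` makes its first step to `w` -/
def fail (v w : V) : Set ((V → ℕ) × (Option (V × ℕ) → ℕ → V)) :=
  {ω | ∀ i < ω.1 v, ω.2 (some (v, i)) 1 ≠ w}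

lemma stepPMF_of_adj {v w : V} (h : G.Adj v w) :
    (Fintype.card V : ℝ≥0∞)⁻¹ ≤ stepPMF G v w := by
  classical
  have hne : (Finset.univ.filter fun y => G.Adj v y).Nonempty := ⟨w, by simp [h]⟩
  rw [stepPMF, dif_pos hne, PMF.uniformOfFinset_apply, if_pos (by simp [h])]
  refine ENNReal.inv_le_inv.mpr ?_
  exact_mod_cast Finset.card_le_univ _

lemma fail_le (lam : ℝ≥0) {v w : V} (h : G.Adj v w) (M : ℕ) :
    frogLaw G o lam (fail v w) ≤
      poissonMeasure lam (Set.Iio M) + (1 - (Fintype.card V : ℝ≥0∞)⁻¹) ^ M := by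
  classical
  set Q := Measure.infinitePi fun p : Option (V × ℕ) => srwLaw G (start o p) with hQ
  set B : Set (Option (V × ℕ) → ℕ → V) := {X | ∀ i < M, X (some (v, i)) 1 ≠ w} with hB
  have hsub : fail v w ⊆ {ω : (V → ℕ) × (Option (V × ℕ) → ℕ → V) | ω.1 v ∈ Set.Iio M} ∪
      Set.univ ×ˢ B := by
    intro ω hω
    by_cases hM : ω.1 v < M
    · exact Or.inl hM
    · right
      refine ⟨trivial, fun i hi => hω i (by omega)⟩
  refine (measure_mono hsub).trans ((measure_union_le _ _).trans ?_)
  have hmc : Measurable fun ω : (V → ℕ) × (Option (V × ℕ) → ℕ → V) => ω.1 v :=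
    (measurable_pi_apply v).comp measurable_fst
  have h1 : frogLaw G o lam {ω | ω.1 v ∈ Set.Iio M} = poissonMeasure lam (Set.Iio M) := by
    rw [← frogLaw_map_count G o lam v, Measure.map_apply hmc .of_discrete]
    rfl
  have h2 : frogLaw G o lam (Set.univ ×ˢ B) = Q B := by
    rw [frogLaw, Measure.prod_prod, measure_univ, one_mul]
  have h3 : Q B ≤ (1 - (Fintype.card V : ℝ≥0∞)⁻¹) ^ M := by
    let I : Finset (Option (V × ℕ)) := (Finset.range M).image fun i => some (v, i)
    have hBI : B = Set.pi (I : Set (Option (V × ℕ))) fun _ => {x : ℕ → V | x 1 = w}ᶜ := by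
      ext X
      simp [hB, I]
    have hm : MeasurableSet {x : ℕ → V | x 1 = w} :=
      (MeasurableSet.singleton w).preimage (measurable_pi_apply 1)
    rw [hBI, hQ, Measure.infinitePi_pi _ fun _ _ => hm.compl]
    have hcard : I.card = M := by
      rw [Finset.card_image_of_injective _ (by intro a b hab; simpa using hab), Finset.card_range]
    calc ∏ i ∈ I, (srwLaw G (start o i)) {x | x 1 = w}ᶜ
        ≤ ∏ _i ∈ I, (1 - (Fintype.card V : ℝ≥0∞)⁻¹) := by
          refine Finset.prod_le_prod' fun p hp => ?_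
          obtain ⟨i, _, rfl⟩ := Finset.mem_image.mp hp
          rw [prob_compl_eq_one_sub hm, srwLaw_one]
          exact tsub_le_tsub_left (stepPMF_of_adj G h) 1
      _ = _ := by rw [Finset.prod_const, hcard]
  rw [h1, h2]
  gcongr

lemma susc_le_one_of_not_fail (hG : G.Connected) (ω : (V → ℕ) × (Option (V × ℕ) → ℕ → V))
    (h0 : ω.2 none 0 = o) (h : ∀ v w, G.Adj v w → ω ∉ fail v w) : susc ω ≤ (1 : ℕ) := by
  rw [susc_le_iff]
  have hstep : ∀ v w, G.Adj v w → Visited ω.1 ω.2 1 v → Visited ω.1 ω.2 1 w := by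
    intro v w hvw hv
    have := h v w hvw
    simp only [fail, Set.mem_ofPred_eq] at this
    push Not at this
    obtain ⟨i, hi, rfl⟩ := this
    exact Visited.wake v i 1 hv hi le_rfl
  have ho : Visited ω.1 ω.2 1 o := by
    have := Visited.extra (N := ω.1) (X := ω.2) (τ := 1) 0 (Nat.zero_le _)
    rwa [h0] at this
  have key : ∀ u v : V, G.Walk u v → Visited ω.1 ω.2 1 u → Visited ω.1 ω.2 1 v := by
    intro u v p
    induction p with
    | nil => exact id
    | cons hadj _ ih => exact fun hu => ih (hstep _ _ hadj hu)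
  intro v
  obtain ⟨p⟩ := hG.preconnected o v
  exact key o v p ho

lemma poisson_Iio_tendsto (M : ℕ) :
    Tendsto (fun L : ℕ => poissonMeasure (L : ℝ≥0) (Set.Iio M)) atTop (𝓝 0) := by
  have h1 : ∀ L : ℕ, poissonMeasure (L : ℝ≥0) (Set.Iio M) =
      ∑ j ∈ Finset.range M, ENNReal.ofReal (Real.exp (-(L : ℝ)) * (L : ℝ) ^ j / j !) := by
    intro L
    have : (Set.Iio M : Set ℕ) = ((Finset.range M : Finset ℕ) : Set ℕ) := by ext; simp
    rw [this, ← sum_measure_singleton]
    refine Finset.sum_congr rfl fun j _ => ?_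
    rw [poissonMeasure_singleton]
    simp
  simp only [h1]
  have h2 : Tendsto (fun L : ℕ => ∑ j ∈ Finset.range M,
      ENNReal.ofReal (Real.exp (-(L : ℝ)) * (L : ℝ) ^ j / j !)) atTop
      (𝓝 (∑ _j ∈ Finset.range M, 0)) := by
    refine tendsto_finsetSum _ fun j _ => ?_
    rw [← ENNReal.ofReal_zero]
    refine ENNReal.tendsto_ofReal ?_
    have h3 := (Real.tendsto_pow_mul_exp_neg_atTop_nhds_zero j).comp
      tendsto_natCast_atTop_atTop
    have h4 := h3.div_const (j ! : ℝ)
    simp only [zero_div] at h4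
    refine h4.congr fun L => ?_
    simp only [Function.comp]
    ring
  simpa using h2

lemma exists_large (hG : G.Connected) :
    ∃ L : ℝ≥0, 1 / 2 ≤ frogLaw G o L {ω | susc ω ≤ (1 : ℕ)} := by
  classical
  have : Nonempty V := ⟨o⟩
  set q : ℝ≥0∞ := 1 - (Fintype.card V : ℝ≥0∞)⁻¹ with hq
  have hq1 : q < 1 := by
    refine ENNReal.sub_lt_self ENNReal.one_ne_top one_ne_zero ?_
    exact ENNReal.inv_ne_zero.mpr (ENNReal.natCast_ne_top _)
  set c : ℝ≥0∞ := (Fintype.card (V × V) : ℝ≥0∞) with hc
  have hctop : c ≠ ⊤ := ENNReal.natCast_ne_top _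
  have hlim : Tendsto (fun m => c * q ^ m) atTop (𝓝 0) := by
    have h1 := ENNReal.Tendsto.const_mul (ENNReal.tendsto_pow_atTop_nhds_zero_of_lt_one hq1)
      (Or.inr hctop)
    simpa using h1
  obtain ⟨M, hM⟩ := ((tendsto_order.1 hlim).2 (1 / 4) (by simp)).exists
  have hlim2 : Tendsto (fun L : ℕ => c * poissonMeasure (L : ℝ≥0) (Set.Iio M)) atTop (𝓝 0) := by
    have h1 := ENNReal.Tendsto.const_mul (poisson_Iio_tendsto M) (Or.inr hctop)
    simpa using h1
  obtain ⟨L, hL⟩ := ((tendsto_order.1 hlim2).2 (1 / 4) (by simp)).exists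
  refine ⟨L, ?_⟩
  set P := frogLaw G o (L : ℝ≥0) with hP
  have hsub : {ω : (V → ℕ) × (Option (V × ℕ) → ℕ → V) | susc ω ≤ (1 : ℕ)}ᶜ ⊆
      {ω | ω.2 none 0 = o}ᶜ ∪
      ⋃ p ∈ (Finset.univ : Finset (V × V)).filter (fun p => G.Adj p.1 p.2), fail p.1 p.2 := by
    intro ω hω
    by_contra hcon
    simp only [Set.mem_union, Set.mem_compl_iff, Set.mem_ofPred_eq, not_or, not_not,
      Set.mem_iUnion, Finset.mem_filter, Finset.mem_univ, true_and, exists_prop, not_exists,
      not_and] at hcon
    exact hω (susc_le_one_of_not_fail G o hG ω hcon.1 fun v w hvw => hcon.2 (v, w) hvw)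
  have hnull : P {ω | ω.2 none 0 = o}ᶜ = 0 := by
    have hm0 : MeasurableSet {x : ℕ → V | x 0 = o} :=
      (MeasurableSet.singleton o).preimage (measurable_pi_apply 0)
    have hms : Measurable fun ω : (V → ℕ) × (Option (V × ℕ) → ℕ → V) => ω.2 none :=
      (measurable_pi_apply none).comp measurable_snd
    have hm : MeasurableSet {ω : (V → ℕ) × (Option (V × ℕ) → ℕ → V) | ω.2 none 0 = o} :=
      hm0.preimage hms
    rw [prob_compl_eq_one_sub hm]
    have h1 : P {ω | ω.2 none 0 = o} = 1 := by
      have h2 : {ω : (V → ℕ) × (Option (V × ℕ) → ℕ → V) | ω.2 none 0 = o} =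
          Set.univ ×ˢ ((fun X : Option (V × ℕ) → ℕ → V => X none) ⁻¹' {x | x 0 = o}) := by
        ext ω; simp
      rw [h2, hP, frogLaw, Measure.prod_prod, measure_univ, one_mul]
      have h3 := (measurePreserving_eval_infinitePi
        (fun p : Option (V × ℕ) => srwLaw G (start o p)) none).measure_preimage
        hm0.nullMeasurableSet
      rw [← srwLaw_zero G o]
      exact h3
    rw [h1]; simp
  have hcompl : P {ω | susc ω ≤ (1 : ℕ)}ᶜ ≤ 1 / 2 := by
    calc P {ω | susc ω ≤ (1 : ℕ)}ᶜ
        ≤ P {ω | ω.2 none 0 = o}ᶜ +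
          P (⋃ p ∈ (Finset.univ : Finset (V × V)).filter (fun p => G.Adj p.1 p.2),
            fail p.1 p.2) := (measure_mono hsub).trans (measure_union_le _ _)
      _ ≤ 0 + ∑ p ∈ (Finset.univ : Finset (V × V)).filter (fun p => G.Adj p.1 p.2),
            P (fail p.1 p.2) := by
          rw [hnull]
          gcongr
          exact measure_biUnion_finset_le _ _
      _ ≤ ∑ _p ∈ (Finset.univ : Finset (V × V)).filter (fun p => G.Adj p.1 p.2),
            (poissonMeasure (L : ℝ≥0) (Set.Iio M) + q ^ M) := by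
          rw [zero_add]
          refine Finset.sum_le_sum fun p hp => ?_
          exact fail_le G o _ (Finset.mem_filter.mp hp).2 M
      _ ≤ ∑ _p : V × V, (poissonMeasure (L : ℝ≥0) (Set.Iio M) + q ^ M) :=
          Finset.sum_le_sum_of_subset (Finset.filter_subset _ _)
      _ = c * poissonMeasure (L : ℝ≥0) (Set.Iio M) + c * q ^ M := by
          rw [Finset.sum_const, Finset.card_univ, nsmul_eq_mul, mul_add]
      _ ≤ 1 / 4 + 1 / 4 := by gcongr
      _ = 1 / 2 := by
          rw [← ENNReal.toReal_eq_toReal_iff' (by finiteness) (by finiteness),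
            ENNReal.toReal_add (by finiteness) (by finiteness)]
          norm_num
  rw [prob_compl_eq_one_sub (measurableSet_susc_le 1), tsub_le_iff_right] at hcompl
  by_contra hlt
  push Not at hlt
  have : (1 : ℝ≥0∞) < 1 / 2 + 1 / 2 := lt_of_le_of_lt hcompl
    (ENNReal.add_lt_add_left (by simp) hlt)
  rw [ENNReal.add_halves] at this
  exact lt_irrefl _ this

/-- For `k ≥ 1` and `|V| > k + 1` there is a density for which the susceptibility is `≤ k` with
probability exactly `1/2`; and then `λ |V| ≥ (|V| - (k+1)) / (2 (k+1))`. -/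
lemma exists_density (hG : G.Connected) (k : ℕ) (hk : 1 ≤ k) (hV : k + 1 < Fintype.card V) :
    ∃ lam : ℝ≥0, 0 < lam ∧ (Fintype.card V - (k + 1) : ℝ) ≤ 2 * (k + 1) * (lam * Fintype.card V) ∧
      frogLaw G o lam {ω | susc ω ≤ k} = 1 / 2 ∧
      frogLaw G o lam {ω | (k : ℕ∞) < susc ω} = 1 / 2 := by
  obtain ⟨L, hL⟩ := exists_large G o hG
  have hL' : 1 / 2 ≤ frogLaw G o L {ω | susc ω ≤ k} := by
    refine hL.trans (measure_mono fun ω hω => ?_)
    simp only [Set.mem_ofPred_eq] at hω ⊢
    exact hω.trans (by exact_mod_cast hk)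
  have hcont := continuousOn_prob G o (measurableSet_susc_le (V := V) k) L
  -- real form of Markov
  have hmarkov : ∀ lam : ℝ≥0, (Fintype.card V : ℝ) * (frogLaw G o lam {ω | susc ω ≤ k}).toReal ≤
      (k + 1) * ((frogLaw G o lam {ω | susc ω ≤ k}).toReal + Fintype.card V * lam) := by
    intro lam
    have h := ENNReal.toReal_mono (by
      refine ENNReal.mul_ne_top (ENNReal.natCast_ne_top _) (ENNReal.add_ne_top.mpr
        ⟨measure_ne_top _ _, ENNReal.mul_ne_top (ENNReal.natCast_ne_top _) ENNReal.coe_ne_top⟩))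
      (markov G o lam k)
    rw [ENNReal.toReal_mul, ENNReal.toReal_mul, ENNReal.toReal_add (measure_ne_top _ _)
      (ENNReal.mul_ne_top (ENNReal.natCast_ne_top _) ENNReal.coe_ne_top), ENNReal.toReal_mul] at h
    simp only [ENNReal.toReal_natCast, ENNReal.coe_toReal] at h
    push_cast at h
    exact h
  have hVr : (k : ℝ) + 1 < Fintype.card V := by exact_mod_cast hV
  have h0 : (frogLaw G o (0 : ℝ).toNNReal {ω | susc ω ≤ k}).toReal ≤ 1 / 2 := by
    have h := hmarkov 0
    rw [Real.toNNReal_zero]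
    simp only [NNReal.coe_zero, mul_zero, add_zero] at h
    have hnn : 0 ≤ (frogLaw G o 0 {ω | susc ω ≤ k}).toReal := ENNReal.toReal_nonneg
    nlinarith
  have h1 : 1 / 2 ≤ (frogLaw G o ((L : ℝ)).toNNReal {ω | susc ω ≤ k}).toReal := by
    rw [Real.toNNReal_coe]
    have := ENNReal.toReal_mono (measure_ne_top _ _) hL'
    simpa using this
  obtain ⟨x, hx, hfx⟩ := intermediate_value_Icc L.coe_nonneg hcont ⟨h0, h1⟩
  simp only at hfx
  have hhalf : frogLaw G o x.toNNReal {ω | susc ω ≤ k} = 1 / 2 := by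
    rw [← ENNReal.toReal_eq_toReal_iff' (measure_ne_top _ _) (by finiteness), hfx]
    simp
  have hm := hmarkov x.toNNReal
  rw [hfx] at hm
  have hmain : (Fintype.card V - (k + 1) : ℝ) ≤
      2 * (k + 1) * (x.toNNReal * Fintype.card V) := by nlinarith
  refine ⟨x.toNNReal, ?_, hmain, hhalf, ?_⟩
  · by_contra hx0
    have hx0' : x.toNNReal = 0 := by simpa using hx0
    rw [hx0'] at hmain
    simp only [NNReal.coe_zero, zero_mul, mul_zero] at hmain
    linarith
  · have : {ω : (V → ℕ) × (Option (V × ℕ) → ℕ → V) | (k : ℕ∞) < susc ω} =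
        {ω | susc ω ≤ k}ᶜ := by
      ext ω; simp
    rw [this, prob_compl_eq_one_sub (measurableSet_susc_le k), hhalf]
    rw [ENNReal.sub_eq_of_eq_add (by finiteness) (ENNReal.add_halves 1).symm]

end meas

end Pool.Agent.MP4d31e4
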