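import Pool.Agent.MP4d31e4.Defs

open MeasureTheory ProbabilityTheory
open scoped ENNReal NNReal

set_option linter.unusedSectionVars false

namespace Pool.Agent.MP4d31e4

section Walk

variable {V : Type*} [Fintype V] [MeasurableSpace V] [DiscreteMeasurableSpace V]

instance (G : SimpleGraph V) : IsProbabilityMeasure (arrowLaw G) := by
  unfold arrowLaw; infer_instance

lemma walk_zero (x : V) (ω : ℕ → V → V) : walk x ω 0 = x := rfl

lemma walk_succ (x : V) (ω : ℕ → V → V) (t : ℕ) : walk x ω (t + 1) = ω t (walk x ω t) := rfl

instance : DiscreteMeasurableSpace (V → V) := by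
  infer_instance

lemma measurable_walk_apply (x : V) (t : ℕ) : Measurable fun ω : ℕ → V → V => walk x ω t := by
  induction t with
  | zero => exact measurable_const
  | succ t ih =>
    have h1 : Measurable fun ω : ℕ → V → V => (ω t, walk x ω t) :=
      (measurable_pi_apply t).prodMk ih
    have h2 : Measurable fun p : (V → V) × V => p.1 p.2 := Measurable.of_discrete
    exact h2.comp h1

lemma measurable_walk (x : V) : Measurable (walk x) :=
  measurable_pi_lambda _ fun t => measurable_walk_apply x t

instance (G : SimpleGraph V) (x : V) : IsProbabilityMeasure (srwLaw G x) :=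
  Measure.isProbabilityMeasure_map (measurable_walk x).aemeasurable

lemma pi_step_apply (G : SimpleGraph V) (w u : V) :
    (Measure.pi fun w : V => (stepPMF G w).toMeasure) {f : V → V | f w = u} = stepPMF G w u := by
  have h := (measurePreserving_eval (fun w : V => (stepPMF G w).toMeasure) w).measure_preimage
    (s := {u}) (MeasurableSet.singleton u).nullMeasurableSet
  rw [PMF.toMeasure_apply_singleton _ _ (MeasurableSet.singleton u)] at h
  exact h

/-- The finite-dimensional distributions of `srwLaw G x` are those of simple random walk. -/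
theorem srwLaw_cylinder (G : SimpleGraph V) (x : V) (t : ℕ) (p : ℕ → V) (h0 : p 0 = x) :
    srwLaw G x {X | ∀ s ≤ t, X s = p s} =
      ∏ s ∈ Finset.range t, stepPMF G (p s) (p (s + 1)) := by
  have hm : MeasurableSet {X : ℕ → V | ∀ s ≤ t, X s = p s} := by
    have : {X : ℕ → V | ∀ s ≤ t, X s = p s} = ⋂ s ∈ Set.Iic t, (fun X : ℕ → V => X s) ⁻¹' {p s} := by
      ext X; simp
    rw [this]
    exact MeasurableSet.biInter (Set.to_countable _)
      fun s _ => measurable_pi_apply s (MeasurableSet.singleton _)
  rw [srwLaw, Measure.map_apply (measurable_walk x) hm]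
  have hset : walk x ⁻¹' {X : ℕ → V | ∀ s ≤ t, X s = p s} =
      Set.pi (Finset.range t : Set ℕ) fun s => {f : V → V | f (p s) = p (s + 1)} := by
    ext ω
    simp only [Set.mem_preimage, Set.mem_ofPred_eq, Set.mem_pi, Finset.coe_range, Set.mem_Iio]
    constructor
    · intro h s hs
      have h1 := h s hs.le
      have h2 := h (s + 1) hs
      rw [walk_succ, h1] at h2
      exact h2
    · intro h s
      induction s with
      | zero => intro _; exact h0.symm
      | succ s ih =>
        intro hs
        rw [walk_succ, ih (by omega)]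
        exact h s (by omega)
  rw [hset, arrowLaw, Measure.infinitePi_pi _ fun s _ => MeasurableSet.of_discrete]
  exact Finset.prod_congr rfl fun s _ => pi_step_apply G _ _

lemma walk_congr (x : V) (t : ℕ) (ω ω' : ℕ → V → V) (h : ∀ s < t, ω s = ω' s) :
    walk x ω t = walk x ω' t := by
  induction t with
  | zero => rfl
  | succ t ih =>
    rw [walk_succ, walk_succ, ih fun s hs => h s (by omega), h t (by omega)]

/-- One-step decomposition. -/
lemma arrowLaw_walk_succ (G : SimpleGraph V) (x u : V) (t : ℕ) :
    arrowLaw G {ω | walk x ω (t + 1) = u} =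
      ∑ w, arrowLaw G {ω | walk x ω t = w} * stepPMF G w u := by
  classical
  have hind : iIndepFun (fun (i : ℕ) (ω : ℕ → V → V) => ω i) (arrowLaw G) :=
    iIndepFun_infinitePi (X := fun (_ : ℕ) (f : V → V) => f) (fun _ => measurable_id)
  have hind2 := hind.indepFun_finset (Finset.range t) {t} (by simp) (fun i => measurable_pi_apply i)
  have hdec : {ω : ℕ → V → V | walk x ω (t + 1) = u} =
      ⋃ w ∈ (Finset.univ : Finset V), ({ω | walk x ω t = w} ∩ {ω | ω t w = u}) := by
    ext ω
    simp [walk_succ]
  have hmeas1 : ∀ w, MeasurableSet {ω : ℕ → V → V | walk x ω t = w} := fun w =>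
    measurable_walk_apply x t (MeasurableSet.singleton w)
  have hmeas2 : ∀ w, MeasurableSet {ω : ℕ → V → V | ω t w = u} := fun w =>
    (MeasurableSet.of_discrete (s := {f : V → V | f w = u})).preimage (measurable_pi_apply t)
  rw [hdec, measure_biUnion_finset]
  · refine Finset.sum_congr rfl fun w _ => ?_
    -- independence
    let g : ((i : Finset.range t) → V → V) → V := fun r =>
      walk x (fun s => if h : s ∈ Finset.range t then r ⟨s, h⟩ else fun v => v) t
    let g2 : ((i : ({t} : Finset ℕ)) → V → V) → V := fun r => r ⟨t, by simp⟩ w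
    have hg : Measurable g := Measurable.of_discrete
    have hg2 : Measurable g2 := Measurable.of_discrete
    have hind3 := hind2.comp hg hg2
    have h1 := hind3.measure_inter_preimage_eq_mul {w} {u} (MeasurableSet.singleton _)
      (MeasurableSet.singleton _)
    have e1 : (g ∘ fun (a : ℕ → V → V) (i : Finset.range t) => a i) = fun ω => walk x ω t := by
      funext ω
      simp only [Function.comp, g]
      apply walk_congr
      intro s hs
      simp [hs]
    have e2 : (g2 ∘ fun (a : ℕ → V → V) (i : ({t} : Finset ℕ)) => a i) = fun ω => ω t w := by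
      funext ω
      simp [g2]
    rw [e1, e2] at h1
    have e3 : arrowLaw G ((fun ω : ℕ → V → V => ω t w) ⁻¹' {u}) = stepPMF G w u := by
      have h2 := (measurePreserving_eval_infinitePi
        (fun _ : ℕ => Measure.pi fun w : V => (stepPMF G w).toMeasure) t).measure_preimage
        (s := {f : V → V | f w = u}) MeasurableSet.of_discrete.nullMeasurableSet
      rw [pi_step_apply] at h2
      exact h2
    rw [e3] at h1
    exact h1
  · intro a _ b _ hab
    refine Set.disjoint_left.mpr fun ω h1 h2 => hab ?_
    exact h1.1.symm.trans h2.1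
  · intro w _
    exact (hmeas1 w).inter (hmeas2 w)

lemma srwLaw_apply_eq (G : SimpleGraph V) (x u : V) (t : ℕ) :
    srwLaw G x {X | X t = u} = arrowLaw G {ω | walk x ω t = u} := by
  have hm : MeasurableSet {X : ℕ → V | X t = u} :=
    (MeasurableSet.singleton u).preimage (measurable_pi_apply t)
  rw [srwLaw, Measure.map_apply (measurable_walk x) hm]
  rfl

lemma srwLaw_zero (G : SimpleGraph V) (x : V) : srwLaw G x {X | X 0 = x} = 1 := by
  rw [srwLaw_apply_eq]
  simp [walk_zero]

lemma srwLaw_one (G : SimpleGraph V) (x u : V) : srwLaw G x {X | X 1 = u} = stepPMF G x u := by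
  classical
  rw [srwLaw_apply_eq, arrowLaw_walk_succ]
  rw [Finset.sum_eq_single x]
  · simp [walk_zero]
  · intro w _ hw
    have : {ω : ℕ → V → V | walk x ω 0 = w} = ∅ := by
      ext ω; simp [walk_zero, hw.symm]
    rw [this]; simp
  · simp

/-- regularity of transitive graphs, in the form that the step matrix is doubly stochastic -/
lemma sum_stepPMF_of_transitive (G : SimpleGraph V) (hG : VertexTransitive G) (u : V) :
    ∑ w, stepPMF G w u = 1 := by
  classical
  have hcard : ∀ w, (Finset.univ.filter fun y => G.Adj w y).card =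
      (Finset.univ.filter fun y => G.Adj u y).card := by
    intro w
    obtain ⟨φ, hφ⟩ := hG w u
    symm
    apply Finset.card_bij (fun y _ => φ y)
    · intro y hy
      simp only [Finset.mem_filter, Finset.mem_univ, true_and] at hy ⊢
      rw [← hφ]
      exact φ.map_adj_iff.mpr hy
    · intro a _ b _ hab
      exact φ.injective hab
    · intro b hb
      simp only [Finset.mem_filter, Finset.mem_univ, true_and] at hb
      refine ⟨φ.symm b, ?_, by simp⟩
      simp only [Finset.mem_filter, Finset.mem_univ, true_and]
      rw [← φ.map_adj_iff, hφ]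
      simpa using hb
  set d := (Finset.univ.filter fun y => G.Adj u y).card with hd
  by_cases hd0 : d = 0
  · have hstep : ∀ w, stepPMF G w u = if w = u then 1 else 0 := by
      intro w
      have hne : ¬ (Finset.univ.filter fun y => G.Adj w y).Nonempty := by
        rw [Finset.not_nonempty_iff_eq_empty, ← Finset.card_eq_zero, hcard w, hd0]
      rw [stepPMF, dif_neg hne, PMF.pure_apply]
      simp [eq_comm]
    simp [hstep]
  · have hstep : ∀ w, stepPMF G w u = if G.Adj u w then (d : ℝ≥0∞)⁻¹ else 0 := by
      intro w
      have hne : (Finset.univ.filter fun y => G.Adj w y).Nonempty := by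
        rw [← Finset.card_pos, hcard w]; omega
      rw [stepPMF, dif_pos hne, PMF.uniformOfFinset_apply]
      simp [hcard w, G.adj_comm u w]
    simp only [hstep]
    rw [← Finset.sum_filter, Finset.sum_const, ← hd, nsmul_eq_mul]
    exact ENNReal.mul_inv_cancel (by exact_mod_cast hd0) (ENNReal.natCast_ne_top d)

/-- stationarity of the uniform distribution -/
lemma sum_arrowLaw_walk (G : SimpleGraph V) (hG : VertexTransitive G) (u : V) (t : ℕ) :
    ∑ x, arrowLaw G {ω | walk x ω t = u} = 1 := by
  classical
  induction t generalizing u with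
  | zero =>
    rw [Finset.sum_eq_single u]
    · simp [walk_zero]
    · intro w _ hw
      have : {ω : ℕ → V → V | walk w ω 0 = u} = ∅ := by
        ext ω; simp [walk_zero, hw]
      rw [this]; simp
    · simp
  | succ t ih =>
    simp only [arrowLaw_walk_succ]
    rw [Finset.sum_comm]
    simp only [← Finset.sum_mul, ih, one_mul]
    exact sum_stepPMF_of_transitive G hG u

lemma srwUnifLaw_apply (G : SimpleGraph V) (A : Set (ℕ → V)) :
    srwUnifLaw G A = (Fintype.card V : ℝ≥0∞)⁻¹ * ∑ x : V, srwLaw G x A := by
  simp [srwUnifLaw, Measure.finsetSum_apply]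

lemma srwUnifLaw_isProb [Nonempty V] (G : SimpleGraph V) :
    IsProbabilityMeasure (srwUnifLaw G) := by
  constructor
  rw [srwUnifLaw_apply]
  simp only [measure_univ, Finset.sum_const, Finset.card_univ, nsmul_eq_mul, mul_one]
  exact ENNReal.inv_mul_cancel (by exact_mod_cast Fintype.card_ne_zero) (ENNReal.natCast_ne_top _)

lemma srwUnifLaw_stationary (G : SimpleGraph V) (hG : VertexTransitive G) (u : V) (t : ℕ) :
    srwUnifLaw G {X | X t = u} = (Fintype.card V : ℝ≥0∞)⁻¹ := by
  rw [srwUnifLaw_apply]
  simp only [srwLaw_apply_eq, sum_arrowLaw_walk G hG, mul_one]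

end Walk

end Pool.Agent.MP4d31e4
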